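import Pool.Agent.Helper71.CK.Goals

/-!
For MP_d34459_al, project CK of helper71, packet HGTNC: heights and noncrossing partitions.
-/

namespace Pool.Agent.Helper87.CK

open Pool.Agent.CK

theorem sh_zero' (h : S_FS) (f : ℤ →₀ ℤ) : sh 0 f = f := h.2.1 f

theorem lab_append (ρ : ℤ → ℤ) (g : Fin 2) (L L' : List (Fin 2 × ℤ)) :
    lab ρ g (L ++ L') = lab ρ g L + lab ρ g L' := by
  induction L with
  | nil => simp [lab]
  | cons p L ih => simp only [List.cons_append, lab, ih]; ring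

theorem hgt_append (h : S_FS) (ρ : ℤ → ℤ) (g : Fin 2) (L L' : List (Fin 2 × ℤ)) :
    hgt ρ g (L ++ L') = hgt ρ g L + sh (lab ρ g L) (hgt ρ g L') := by
  induction L with
  | nil => simp [lab, hgt, sh_zero' h]
  | cons p L ih =>
    simp only [List.cons_append, lab, hgt, ih]
    split_ifs with hp
    · rw [map_add, h.2.2.1]
    · rw [zero_add, add_assoc]

theorem inv_cons (p : Fin 2 × ℤ) (L : List (Fin 2 × ℤ)) :
    inv (p :: L) = inv L ++ [(p.1, -p.2)] := by
  simp [inv]

theorem lab_inv (ρ : ℤ → ℤ) (g : Fin 2) (hρ : ∀ x, ρ (-x) = - ρ x) (L : List (Fin 2 × ℤ)) :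
    lab ρ g (inv L) = - lab ρ g L := by
  induction L with
  | nil => simp [inv, lab]
  | cons p L ih =>
    rw [inv_cons, lab_append, ih]
    simp only [lab, hρ]
    split_ifs <;> ring

theorem hgt_inv (h : S_FS) (ρ : ℤ → ℤ) (g : Fin 2) (hρ : ∀ x, ρ (-x) = - ρ x)
    (L : List (Fin 2 × ℤ)) :
    hgt ρ g (inv L) = - sh (- lab ρ g L) (hgt ρ g L) := by
  induction L with
  | nil => simp [inv, hgt]
  | cons p L ih =>
    rw [inv_cons, hgt_append h, ih, lab_inv ρ g hρ]
    simp only [lab, hgt]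
    split_ifs with hp
    · rw [map_zero, map_zero, add_zero, h.2.2.1]
      congr 2
      congr 1
      ring
    · rw [zero_add, add_zero, map_add, Finsupp.single_neg, map_neg]
      abel

theorem lab_bl (ρ : ℤ → ℤ) (g : Fin 2) (K : List ℤ) : lab ρ g (bl g K) = (K.map ρ).sum := by
  induction K with
  | nil => simp [bl, lab]
  | cons x K ih =>
    have : bl g (x :: K) = (g, x) :: bl g K := rfl
    rw [this]
    simp only [lab, if_true, ih, List.map_cons, List.sum_cons]

theorem hgt_bl (ρ : ℤ → ℤ) (g : Fin 2) (K : List ℤ) : hgt ρ g (bl g K) = 0 := by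
  induction K with
  | nil => simp [bl, hgt]
  | cons x K ih =>
    have : bl g (x :: K) = (g, x) :: bl g K := rfl
    rw [this]
    simp only [hgt, if_true, ih, map_zero]

theorem lab_bl' (ρ : ℤ → ℤ) (g g' : Fin 2) (hg : g' ≠ g) (K : List ℤ) :
    lab ρ g (bl g' K) = 0 := by
  induction K with
  | nil => simp [bl, lab]
  | cons x K ih =>
    have : bl g' (x :: K) = (g', x) :: bl g' K := rfl
    rw [this]
    simp only [lab, if_neg hg, ih, add_zero]

theorem hgt_bl' (ρ : ℤ → ℤ) (g g' : Fin 2) (hg : g' ≠ g) (K : List ℤ) :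
    hgt ρ g (bl g' K) = Finsupp.single 0 K.sum := by
  induction K with
  | nil => simp [bl, hgt]
  | cons x K ih =>
    have : bl g' (x :: K) = (g', x) :: bl g' K := rfl
    rw [this]
    simp only [hgt, if_neg hg, ih, List.sum_cons, Finsupp.single_add]

theorem nc_bound (h : S_FS) (ρ : ℤ → ℤ) (g : Fin 2) (L : List (Fin 2 × ℤ))
    (B : List (Fin 2 × List ℤ)) (hB : NC L B) :
    (∀ b ∈ B, b.1 = g → (b.2.map ρ).sum = 0) → lab ρ g L = 0 ∧ nrm (hgt ρ g L) ≤ cost B := by
  induction hB with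
  | nil => intro _; simp [lab, hgt, nrm, cost]
  | ins g' L₁ K L₂ B₀ _ ih =>
    intro hb
    obtain ⟨ih1, ih2⟩ := ih fun b hb' => hb b (List.mem_cons_of_mem _ hb')
    rw [lab_append] at ih1
    rw [hgt_append h] at ih2
    have hcost : cost ((g', K) :: B₀) = K.sum.natAbs + cost B₀ := by simp [cost]
    rw [lab_append, lab_append, hgt_append h, hgt_append h, lab_append, hcost]
    by_cases hg : g' = g
    · have hK : (K.map ρ).sum = 0 := hb (g', K) List.mem_cons_self hg
      subst hg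
      rw [lab_bl, hgt_bl, hK, map_zero, add_zero, add_zero]
      exact ⟨ih1, ih2.trans (Nat.le_add_left _ _)⟩
    · rw [lab_bl' ρ g g' hg, hgt_bl' ρ g g' hg, add_zero]
      refine ⟨ih1, ?_⟩
      have e : hgt ρ g L₁ + (sh (lab ρ g L₁)) (Finsupp.single 0 K.sum) +
          (sh (lab ρ g L₁)) (hgt ρ g L₂) =
          (sh (lab ρ g L₁)) (Finsupp.single 0 K.sum) +
            (hgt ρ g L₁ + (sh (lab ρ g L₁)) (hgt ρ g L₂)) := by abel
      rw [e]
      obtain ⟨-, -, -, f4, f5, -, -, -, -, -, -, -, f13⟩ := h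
      refine (f5 _ _).trans ?_
      rw [f4, (f13 _).1]
      exact Nat.add_le_add_left ih2 _

theorem sig_hgt (h : S_FS) (ρ : ℤ → ℤ) (g : Fin 2) (L : List (Fin 2 × ℤ)) :
    sig (hgt ρ g L) = (L.map (fun p => if p.1 = g then 0 else p.2)).sum := by
  obtain ⟨-, -, -, -, -, -, -, f8, f9, -, -, -, f13⟩ := h
  induction L with
  | nil => simp [hgt, sig]
  | cons p L ih =>
    simp only [hgt, List.map_cons, List.sum_cons]
    split_ifs with hp
    · rw [f9, ih, zero_add]
    · rw [(f8 _ _).1, (f13 _).2, ih]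

theorem hgtnc (h : S_FS) : S_HGTNC :=
  ⟨fun ρ g L L' => ⟨lab_append ρ g L L', hgt_append h ρ g L L'⟩,
    fun ρ g L hρ => ⟨lab_inv ρ g hρ L, hgt_inv h ρ g hρ L⟩,
    fun ρ g L B hB => nc_bound h ρ g L B hB,
    fun ρ g L => sig_hgt h ρ g L⟩

end Pool.Agent.Helper87.CK
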